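import Pool.Agent.W322.HB.Tools

/-!
# Project HB (owner helper322): the class vector becomes zero
-/

set_option autoImplicit false

namespace Pool.Agent.W338.HB

open Finset Pool.Agent.W322.HB
open Pool.Agent.H115R3.DT (RT St Ls Ds Us nb)

section
variable {V : Type} [DecidableEq V]

/-- the index of a vertex of a branch -/
theorem idx (n : ℕ) (e : ℕ → V) (hinj : ∀ i < n, ∀ j < n, e i = e j → i = j) {β : Type} [Zero β]
    (l0 : ℕ → β) : ∃ l : V → β, ∀ i < n, l (e i) = l0 i := by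
  classical
  refine ⟨fun x => if h : ∃ i, i < n ∧ e i = x then l0 (Nat.find h) else 0, fun i hi => ?_⟩
  have h : ∃ j, j < n ∧ e j = e i := ⟨i, hi, rfl⟩
  beta_reduce
  rw [dif_pos h]
  have h1 := Nat.find_spec h
  rw [hinj _ h1.1 i hi h1.2]

theorem dp_le {R : RT V} {n : ℕ} {p : ℕ → ℕ} {e : ℕ → V} {C : ℕ} (hS : Shape C n p)
    (hB : Br R n p e) : ∀ i < n, R.dp (e i) ≤ i + 1 := by
  intro i
  induction i using Nat.strong_induction_on with
  | _ i ih =>
    intro hi
    rw [R.dp_par _ (hB.ne i hi)]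
    rcases Nat.eq_zero_or_pos i with h | h
    · subst h
      rw [hB.top, R.dp_v]
    · rw [hB.par i h hi]
      have h1 := hS.lt i h hi
      have := ih (p i) h1 (by omega)
      omega

theorem par_ne {R : RT V} {n : ℕ} {p : ℕ → ℕ} {e : ℕ → V} {C : ℕ} (hS : Shape C n p)
    (hB : Br R n p e) {i : ℕ} (hi : i < n) : R.par (e i) ≠ R.v ↔ 0 < i := by
  constructor
  · intro h
    by_contra h0
    have : i = 0 := by omega
    subst this
    exact h hB.top
  · intro h
    rw [hB.par i h hi]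
    exact hB.ne _ ((hS.lt i h hi).trans hi)

/-- one branch -/
theorem one (hG : TaskGen) {R : RT V} {m C n κ Q u T S g₁ g₂ g₃ G : ℕ} {p : ℕ → ℕ}
    {W : Finset V} {f : V → ℕ} {rs : Finset V} {e : V → ℕ → V} (l0 : ℕ → ZMod Q)
    (hN : Num C κ Q u T S g₁ g₂ g₃ G) (hS : Shape C n p) (hI : Inv R m C n p G u W f rs e)
    (h1 : ∀ x ∈ Ls R W f \ Ds R W f, x ≤ S) (h2 : ∀ x ∈ Ds R W f \ Ls R W f, x ≤ S)
    (hm : (C + 1) * T ≤ m) {r : V} (hr : r ∈ rs) :
    ∃ f' : V → ℕ, (∀ x ∈ W, f' x = f x) ∧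
      Inv R m C n p G u (Wn n W rs (rs.erase r) e) f' (rs.erase r) e ∧
      (∀ x ∈ Ls R (Wn n W rs (rs.erase r) e) f' \ Ds R (Wn n W rs (rs.erase r) e) f', x ≤ S) ∧
      (∀ x ∈ Ds R (Wn n W rs (rs.erase r) e) f' \ Ls R (Wn n W rs (rs.erase r) e) f', x ≤ S) ∧
      (Ds R (Wn n W rs (rs.erase r) e) f' \ Ls R (Wn n W rs (rs.erase r) e) f').card ≤
        (Ds R W f \ Ls R W f).card + C ∧
      Mv Q R (Wn n W rs (rs.erase r) e) f' = Mv Q R W f + Ef Q n p l0 := by
  have hB := hI.fam.br r hr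
  obtain ⟨l, hl⟩ := idx n (e r) hB.inj l0
  rw [Wn_erase hr]
  obtain ⟨U, hU⟩ : ∃ U, U = vs n (e r) := ⟨_, rfl⟩
  have hcard : U.card ≤ C := hU ▸ (card_vs_le n (e r)).trans hS.le
  have hrs : 1 ≤ rs.card := card_pos.2 ⟨r, hr⟩
  have hnum := hI.num
  have hrC : 2 * C ≤ 2 * C * rs.card := Nat.le_mul_of_pos_right _ hrs
  have hdis : Disjoint U W := hU ▸ hI.fam.disW r hr
  have hmem : ∀ i < n, e r i ∈ U := fun i hi => hU ▸ mem_vs.2 ⟨i, hi, rfl⟩
  have hparU : ∀ x ∈ U, R.par x ≠ R.v → R.par x ∈ U := by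
    intro x hx hne
    rw [hU, mem_vs] at hx
    obtain ⟨i, hi, rfl⟩ := hx
    have h0 := (par_ne hS hB hi).1 hne
    rw [hB.par i h0 hi]
    exact hmem _ ((hS.lt i h0 hi).trans hi)
  obtain ⟨f', hf1, hf2, hf3, hf4, hf5, hf6, hf7, hf8⟩ := hG V R m C κ Q u T S g₁ g₂ g₃ G W f U l
    hN hI.st (by omega) hdis (fun x hx => by
      by_cases h : R.par x = R.v
      · rw [h]; exact mem_union_left _ hI.st.root
      · exact mem_union_right _ (hparU x hx h))
    (fun x hx => by
      rw [hU, mem_vs] at hx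
      obtain ⟨i, hi, rfl⟩ := hx
      have h3 := dp_le hS hB i hi
      have h4 := hS.le
      omega)
    (fun x hx hxW hne => absurd hxW (disjoint_left.1 hdis (hparU x hx hne))) hm
  have hlab : ∀ x ∈ U, f' x ≤ S := by
    intro x hx
    have h3 := (hf3 x hx).2.1
    have h4 : (C + 2 - R.dp x) * T ≤ (C + 2 * κ + 2) * T := Nat.mul_le_mul_right _ (by omega)
    rw [hN.hS]
    omega
  rw [← hU]
  refine ⟨f', hf1, ?_, ?_, ?_, ?_, ?_⟩
  · rw [hU] at hf2 hf5 ⊢
    refine hI.step hr hf2 (hf5.trans ?_)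
    have := (card_vs_le n (e r)).trans hS.le
    omega
  · intro x hx
    rcases hf6 x hx with h | ⟨y, hy, -, rfl⟩
    · exact h1 x h
    · exact hlab y hy
  · intro x hx
    rcases hf7 x hx with h | ⟨y, hy, hne, rfl⟩
    · exact h2 x h
    · have := hlab _ (hparU y hy hne)
      omega
  · have hsub : Ds R (W ∪ U) f' \ Ls R (W ∪ U) f' ⊆
        (Ds R W f \ Ls R W f) ∪ U.image (fun y => f' (R.par y) - f' y) := by
      intro x hx
      rcases hf7 x hx with h | ⟨y, hy, -, rfl⟩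
      · exact mem_union_left _ h
      · exact mem_union_right _ (mem_image_of_mem _ hy)
    exact (card_le_card hsub).trans ((card_union_le _ _).trans
      (Nat.add_le_add_left (card_image_le.trans hcard) _))
  · rw [hf8]
    congr 1
    unfold Ef
    have hUf : U.filter (fun x => R.par x ≠ R.v) =
        ((range n).filter (fun i => 0 < i)).image (e r) := by
      ext x
      rw [mem_filter, mem_image, hU, mem_vs]
      constructor
      · rintro ⟨⟨i, hi, rfl⟩, hne⟩
        exact ⟨i, mem_filter.2 ⟨mem_range.2 hi, (par_ne hS hB hi).1 hne⟩, rfl⟩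
      · rintro ⟨i, hi, rfl⟩
        rw [mem_filter, mem_range] at hi
        exact ⟨⟨i, hi.1, rfl⟩, (par_ne hS hB hi.1).2 hi.2⟩
    rw [hUf, sum_image]
    · refine sum_congr rfl fun i hi => ?_
      rw [mem_filter, mem_range] at hi
      have h3 := hS.lt i hi.2 hi.1
      rw [hB.par i hi.2 hi.1, (hf3 _ (hmem (p i) (h3.trans hi.1))).2.2, hl i hi.1,
        hl (p i) (h3.trans hi.1)]
    · intro i hi j hj hij
      rw [mem_coe, mem_filter, mem_range] at hi hj
      exact hB.inj i hi.1 j hj.1 hij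

end

theorem taskB : TaskB := by
  intro hG V _ R m C n κ Q u T S g₁ g₂ g₃ G p W f rs e ls
  induction ls generalizing W f rs with
  | nil =>
    intro hN hS hI h1 h2 hm _ hM
    refine ⟨f, rs, subset_rfl, by simp, ?_⟩
    rw [Wn_self]
    refine ⟨hI, fun _ _ => rfl, h1, h2, by simp, ?_⟩
    simpa using hM
  | cons l0 ls ih =>
    intro hN hS hI h1 h2 hm hlen hM
    rw [List.length_cons] at hlen
    obtain ⟨r, hr⟩ : rs.Nonempty := card_pos.1 (by omega)
    obtain ⟨f₁, k1, k2, k3, k4, k5, k6⟩ := one hG l0 hN hS hI h1 h2 hm hr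
    have hc : (rs.erase r).card + 1 = rs.card := card_erase_add_one hr
    rw [List.map_cons, List.sum_cons, ← add_assoc] at hM
    obtain ⟨f', rs', j1, j2, j3, j4, j5, j6, j7, j8⟩ := ih (Wn n W rs (rs.erase r) e) f₁
      (rs.erase r) hN hS k2 k3 k4 hm (by omega) (by rw [k6]; exact hM)
    have e1 := Wn_trans (n := n) (W := W) (e := e) (erase_subset r rs) j1
    rw [e1] at j3 j5 j6 j7 j8
    refine ⟨f', rs', j1.trans (erase_subset _ _), ?_, j3, fun x hx => ?_, j5, j6, ?_, j8⟩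
    · rw [List.length_cons]
      omega
    · rw [j4 x (mem_union_left _ hx), k1 x hx]
    · rw [List.length_cons, Nat.mul_add, Nat.mul_one]
      omega

end Pool.Agent.W338.HB
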